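import Pool.Agent.Lib.MP_fd0bc0_an.Left
import Pool.Agent.Lib.MP_fd0bc0_an.Defs2

set_option autoImplicit false

namespace Pool.Agent.Results.MP_fd0bc0_an.NoLeftFactor

open MeasureTheory Pool.Agent.Lib.MP_fd0bc0_an

theorem result (a b : EReal) (hab : a < b)
    (A : Lp ℂ 2 (lebesgueOn a b) →ₗ.[ℂ] Lp ℂ 2 (lebesgueOn a b))
    (hA : IsCarleman (lebesgueOn a b) A) (hd : DenselyDefined (lebesgueOn a b) A)
    (h0 : NonzeroOp (lebesgueOn a b) A) :
    ∃ B : Lp ℂ 2 (lebesgueOn a b) →ₗ.[ℂ] Lp ℂ 2 (lebesgueOn a b),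
      ClosedGraph (lebesgueOn a b) B ∧ DenselyDefined (lebesgueOn a b) B ∧
      IsCarleman (lebesgueOn a b) B ∧ DenselyDefined (lebesgueOn a b) (prodOp A B) ∧
      ¬ IsCarleman (lebesgueOn a b) (prodOp A B) := by
  obtain ⟨E, hE, hfin, hpos, hdisj⟩ := exists_sets hab
  have : SigmaFinite (lebesgueOn a b) := by unfold lebesgueOn; infer_instance
  exact no_left_factor Measure.restrict_le_self hE hfin hpos hdisj hA hd h0

end Pool.Agent.Results.MP_fd0bc0_an.NoLeftFactor
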