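import Pool.Agent.Lib.MP_fd0bc0_an.Main

set_option autoImplicit false

namespace Pool.Agent.Results.MP_fd0bc0_an.SquareNotCarleman

open MeasureTheory Pool.Agent.Lib.MP_fd0bc0_an

theorem result (a b : EReal) (hab : a < b) :
    ∃ B : Lp ℂ 2 (lebesgueOn a b) →ₗ.[ℂ] Lp ℂ 2 (lebesgueOn a b),
      IsSelfAdjoint B ∧ IsCarleman (lebesgueOn a b) B ∧
      Dense ((prodOp B B).domain : Set (Lp ℂ 2 (lebesgueOn a b))) ∧
      ¬ IsCarleman (lebesgueOn a b) (prodOp B B) := by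
  obtain ⟨E, hE, hfin, hpos, hdisj⟩ := exists_sets hab
  have hu := uu_orthonormal hE hfin hpos hdisj
  exact ⟨opB hu, opB_selfAdjoint hu, opB_carleman hE hfin hdisj hu, dense_sq hu,
    sq_not_carleman hE hfin hpos hdisj hu⟩

end Pool.Agent.Results.MP_fd0bc0_an.SquareNotCarleman
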